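import Pool.Agent.N207.GQ.Count
import Pool.Agent.N207.GS.Comp

/-!
# Relations over the algebraic numbers at almost all points hold on the component of the fibre of the closure over the
algebraic numbers

No hypothesis on the functions.
-/

set_option autoImplicit false
set_option linter.unusedSectionVars false

open NumberField

namespace Pool.Agent.N207.GQ

open Pool.Agent.Y890.MV Pool.Agent.Y890.SP Pool.Agent.N207.GS
open Pool.Agent.Y124 (Cov)

section swap
variable {A0 I Λ : Type} [CommRing A0]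

/-- exchange of the variables -/
noncomputable def sw0 : MvPolynomial Λ (MvPolynomial I A0) →+* MvPolynomial I (MvPolynomial Λ A0) :=
  MvPolynomial.eval₂Hom (MvPolynomial.map MvPolynomial.C) (fun l => MvPolynomial.C (MvPolynomial.X l))

theorem sw0_eval (e : A0 →+* ℂ) (p : MvPolynomial Λ (MvPolynomial I A0)) (P : Λ → ℂ) (y : I → ℂ) :
    MvPolynomial.eval y (MvPolynomial.map (MvPolynomial.eval₂Hom e P) (sw0 p)) =
      MvPolynomial.eval₂ (MvPolynomial.eval₂Hom e y) P p := by
  have h : ((MvPolynomial.eval y).comp (MvPolynomial.map (MvPolynomial.eval₂Hom e P))).comp sw0 =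
      MvPolynomial.eval₂Hom (MvPolynomial.eval₂Hom e y) P := by
    apply MvPolynomial.ringHom_ext
    · intro a
      simp only [RingHom.comp_apply, sw0, MvPolynomial.eval₂Hom_C]
      induction a using MvPolynomial.induction_on with
      | C a => simp
      | add p q hp hq => simp only [map_add, hp, hq]
      | mul_X p i hp => simp only [map_mul, hp]; simp
    · intro l
      simp only [RingHom.comp_apply, sw0, MvPolynomial.eval₂Hom_X']
      simp
  exact RingHom.congr_fun h p

end swap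

/-- the specialization of a polynomial over the algebraic numbers -/
theorem spc_up {X I Λ : Type} (𝒢 : MvPolynomial I (MvPolynomial Λ (MvPolynomial X Qbar))) (t : X → ℂ) (P : Λ → ℂ) :
    spc (MvPolynomial.map up2 𝒢) t P =
      MvPolynomial.map (MvPolynomial.eval₂Hom ((MvPolynomial.eval t).comp upX) P) 𝒢 := by
  rw [spc, MvPolynomial.map_map]
  congr 1
  apply MvPolynomial.ringHom_ext
  · intro a
    simp only [RingHom.comp_apply, up2, MvPolynomial.map_C, MvPolynomial.coe_eval₂Hom]
    rw [MvPolynomial.eval₂_map]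
  · intro l
    simp [up2]

/-- the value of a polynomial over the algebraic numbers -/
theorem evX_up {X σ : Type} (x : X → ℂ) (a : σ → ℂ) (p : MvPolynomial σ (MvPolynomial X Qbar)) :
    evX x a (up2 p) = MvPolynomial.eval₂ ((MvPolynomial.eval x).comp upX) a p := by
  unfold evX up2
  rw [MvPolynomial.eval₂_map]

/-- the fibre over `x` of the Zariski closure of the graph over the algebraic numbers -/
def FibQ {X σ : Type} (U : Set (X → ℂ)) (f : σ → (X → ℂ) → ℂ) (x : X → ℂ) : Set (σ → ℂ) :=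
  {a | ∀ p : MvPolynomial σ (MvPolynomial X Qbar), (∀ z ∈ U, evM f z (up2 p) = 0) → evX x a (up2 p) = 0}

/-- the exceptional points: some relation at `s` does not hold on an irreducible subset of the fibre -/
def ExcQ {X σ h : Type} [Fintype σ] [DecidableEq σ] [Fintype h] (δ : ℕ) (U : Set (X → ℂ))
    (f : σ → (X → ℂ) → ℂ) (Lc : Set (X → ℂ)) (K : Type) [Field K] [NumberField K] (io : K →+* ℂ) (ξ : h → Qbar)
    (A T : ℝ) : Set (X → K) :=
  {s | (∀ i, Y120.HtLe K T (s i)) ∧ (fun i => io (s i)) ∈ Lc ∧ ∃ c : (σ → Fin (δ + 1)) → h → 𝓞 K,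
    (∀ l i (φ : K →+* ℂ), ‖φ (c l i : K)‖ ≤ T ^ A) ∧
    ∑ l, (∑ i, algebraMap Qbar ℂ (ξ i) * io (c l i : K)) * ∏ y, f y (fun i => io (s i)) ^ (l y : ℕ) = 0 ∧
    ∃ S : Set (σ → ℂ), Irr S ∧ (fun y => f y fun i => io (s i)) ∈ S ∧ S ⊆ FibQ U f (fun i => io (s i)) ∧
      ∃ a ∈ S, ∑ l, (∑ i, algebraMap Qbar ℂ (ξ i) * io (c l i : K)) * ∏ y, a y ^ (l y : ℕ) ≠ 0}

theorem ident0 {A0 σ Λ I L : Type} [CommRing A0] [IsDomain A0] [Fintype Λ] [Field L] [Algebra A0 L]
    [FaithfulSMul A0 L] (F : σ → L) (e : A0 →+* ℂ)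
    (a : σ → ℂ) (ha : ∀ p : MvPolynomial σ A0, MvPolynomial.aeval F p = 0 → p.eval₂ e a = 0)
    (lm : Λ → MvPolynomial σ A0) (ι : I → σ) (D : MvPolynomial I A0)
    (q : Polynomial (MvPolynomial Λ (MvPolynomial I A0)))
    (hq : Polynomial.eval₂ (MvPolynomial.map (evI (F ∘ ι)))
        (∑ l, MvPolynomial.X l * MvPolynomial.C (evI (F ∘ ι) D * MvPolynomial.aeval F (lm l)) : MvPolynomial Λ L)
        q = 0) (P : Λ → ℂ) :
    ∑ k ∈ Finset.range (q.natDegree + 1), MvPolynomial.eval (a ∘ ι)
        (MvPolynomial.map (MvPolynomial.eval₂Hom e P) (sw0 (q.coeff k))) *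
      (D.eval₂ e (a ∘ ι) * ∑ l, P l * (lm l).eval₂ e a) ^ k = 0 := by
  classical
  set φ : MvPolynomial Λ (MvPolynomial I A0) →+* MvPolynomial Λ (MvPolynomial σ A0) :=
    MvPolynomial.map (MvPolynomial.rename ι : MvPolynomial I A0 →ₐ[A0] MvPolynomial σ A0).toRingHom with hφ
  set θ : MvPolynomial Λ (MvPolynomial σ A0) :=
    ∑ l, MvPolynomial.X l * MvPolynomial.C (MvPolynomial.rename ι D * lm l) with hθ
  set H := Polynomial.eval₂ φ θ q with hH
  let aF : MvPolynomial σ A0 →+* L := (MvPolynomial.aeval F).toRingHom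
  have hcomp : (MvPolynomial.map (σ := Λ) aF).comp φ = MvPolynomial.map (evI (F ∘ ι)) := by
    apply MvPolynomial.ringHom_ext
    · intro p
      simp only [RingHom.comp_apply, hφ, MvPolynomial.map_C]
      congr 1
      exact (evI_rename F ι p).symm
    · intro l
      simp [hφ]
  have h1 : MvPolynomial.map aF H = 0 := by
    rw [hH, Polynomial.hom_eval₂, hcomp, ← hq]
    congr 1
    rw [hθ, map_sum]
    refine Finset.sum_congr rfl fun l _ => ?_
    rw [map_mul, MvPolynomial.map_X, MvPolynomial.map_C, map_mul]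
    congr 3
    exact (evI_rename F ι D).symm
  let eX : MvPolynomial σ A0 →+* ℂ := MvPolynomial.eval₂Hom e a
  have h2 : MvPolynomial.map eX H = 0 := by
    ext ν
    rw [MvPolynomial.coeff_map, MvPolynomial.coeff_zero]
    apply ha
    have h3 := congrArg (MvPolynomial.coeff ν) h1
    rw [MvPolynomial.coeff_map, MvPolynomial.coeff_zero] at h3
    exact h3
  have h3 := congrArg (MvPolynomial.eval P) h2
  rw [map_zero, hH, Polynomial.hom_eval₂, Polynomial.hom_eval₂, Polynomial.eval₂_eq_sum_range] at h3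
  rw [← h3]
  refine Finset.sum_congr rfl fun k _ => ?_
  congr 1
  · rw [sw0_eval]
    have h4 : ((MvPolynomial.eval P).comp ((MvPolynomial.map eX).comp φ)) =
        MvPolynomial.eval₂Hom (MvPolynomial.eval₂Hom e (a ∘ ι)) P := by
      apply MvPolynomial.ringHom_ext
      · intro p
        simp only [RingHom.comp_apply, hφ, MvPolynomial.map_C, MvPolynomial.eval_C, MvPolynomial.eval₂Hom_C]
        change MvPolynomial.eval₂ e a (MvPolynomial.rename ι p) = _
        rw [MvPolynomial.eval₂_rename]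
        rfl
      · intro l
        simp [hφ]
    exact (RingHom.congr_fun h4 (q.coeff k)).symm
  · congr 1
    rw [hθ, map_sum, map_sum, Finset.mul_sum]
    refine Finset.sum_congr rfl fun l _ => ?_
    rw [map_mul, map_mul, MvPolynomial.map_X, MvPolynomial.map_C, MvPolynomial.eval_X, MvPolynomial.eval_C, map_mul]
    have h5 : eX (MvPolynomial.rename ι D) = D.eval₂ e (a ∘ ι) := by
      change MvPolynomial.eval₂ e a (MvPolynomial.rename ι D) = _
      rw [MvPolynomial.eval₂_rename]
    have h6 : eX (lm l) = (lm l).eval₂ e a := rfl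
    rw [h5, h6]
    ring

/-- **The relations over the algebraic numbers at almost all points hold on the irreducible subsets of the fibre through
the point.** -/
theorem compQ (hMat : StmMat) (hEl : StmElim) (hInd : StmInd) (hSub : StmSub) {X σ : Type} [Fintype X] [DecidableEq X] [Nonempty X] [Fintype σ] [DecidableEq σ] {U : Set (X → ℂ)}
    {f : σ → (X → ℂ) → ℂ} (hU : IsPreconnected U) (hUo : IsOpen U) (hne : U.Nonempty)
    (hf : ∀ i, AnalyticOnNhd ℂ (f i) U) (Lc : Set (X → ℂ)) (hLc : IsCompact Lc) (hLU : Lc ⊆ U) (δ : ℕ)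
    (h : Type) [Fintype h] [DecidableEq h] (m : ℕ) (A ε : ℝ) (hε : 0 < ε) :
    ∃ (D : ℕ) (C T₀ : ℝ), 0 ≤ C ∧ 2 ≤ T₀ ∧
      ∀ (K : Type) [Field K] [NumberField K], Module.finrank ℚ K ≤ m → ∀ (io : K →+* ℂ) (ξ : h → Qbar) (T : ℝ),
        T₀ ≤ T → Cov D ⌊C * T ^ ε⌋₊ ((fun (s : X → K) i => io (s i)) '' ExcQ δ U f Lc K io ξ A T) := by
  classical
  obtain ⟨L₀, _, _, _, F₀, hz₀, -⟩ := exists_fieldM hU hUo hne hf
  obtain ⟨L, _, _, _, F, hz₁, hfrac⟩ := hSub (MvPolynomial X Qbar) L₀ σ
    ((MvPolynomial.aeval F₀).toRingHom.comp up2) (by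
      intro p q hpq
      have h1 : MvPolynomial.aeval F₀ (up2 (MvPolynomial.C p : MvPolynomial σ (MvPolynomial X Qbar))) =
        MvPolynomial.aeval F₀ (up2 (MvPolynomial.C q : MvPolynomial σ (MvPolynomial X Qbar))) := hpq
      rw [up2, MvPolynomial.map_C, MvPolynomial.map_C, MvPolynomial.aeval_C, MvPolynomial.aeval_C] at h1
      exact upX_inj (FaithfulSMul.algebraMap_injective (MvPolynomial X ℂ) L₀ h1))
  have hz : ∀ p : MvPolynomial σ (MvPolynomial X Qbar), MvPolynomial.aeval F p = 0 ↔ ∀ x ∈ U, evM f x (up2 p) = 0 :=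
    fun p => (hz₁ p).trans (hz₀ (up2 p))
  let Λ := σ → Fin (δ + 1)
  let lm : Λ → MvPolynomial σ (MvPolynomial X Qbar) := fun l => ∏ y, MvPolynomial.X y ^ (l y : ℕ)
  have hlm : ∀ l (e : MvPolynomial X Qbar →+* ℂ) (a : σ → ℂ), (lm l).eval₂ e a = ∏ y, a y ^ (l y : ℕ) := by
    intro l x a
    rw [MvPolynomial.eval₂_prod]
    refine Finset.prod_congr rfl fun y _ => ?_
    rw [MvPolynomial.eval₂_pow, MvPolynomial.eval₂_X]
  obtain ⟨I, _, _, ι, D, q, hind, hD, hq, hq0⟩ := exists_char F hfrac lm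
  have hid := fun (x : X → ℂ) (a : σ → ℂ) (ha : a ∈ FibQ U f x) P => ident0 F ((MvPolynomial.eval x).comp upX) a
    (fun p hp => by
      have h1 := ha p ((hz p).1 hp)
      rw [evX_up] at h1
      exact h1) lm ι D q hq0 P
  set e := q.natDegree with he
  have hyind : ∀ p : MvPolynomial I (MvPolynomial X Qbar), (∀ z ∈ U, evM (fun (i : I) t => f (ι i) t) z (up2 p) = 0) →
      p = 0 := by
    intro p hp
    have h1 : MvPolynomial.aeval F (MvPolynomial.rename ι p) = 0 := by
      rw [hz]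
      intro z hz
      have h2 := hp z hz
      rw [evM_eq, evX_up] at h2 ⊢
      rw [MvPolynomial.eval₂_rename]
      exact h2
    rw [MvPolynomial.aeval_rename] at h1
    exact (injective_iff_map_eq_zero _).1 hind p h1
  -- the counts
  let 𝒢 : Option (Fin (e + 1)) → MvPolynomial I (MvPolynomial Λ (MvPolynomial X Qbar)) := fun o =>
    o.elim (MvPolynomial.map MvPolynomial.C D) (fun k => sw0 (q.coeff k))
  choose DD C T₀ hC hT₀ Hc using fun o => countQ hMat hEl hInd hU hUo hne (fun (i : I) t => f (ι i) t)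
    (fun i => hf _) hyind (𝒢 o) Lc hLc hLU h m A ε hε
  obtain ⟨α₀, hα₀⟩ := MvPolynomial.ne_zero_iff.1 hD
  refine ⟨(∑ o, DD o) + (D.coeff α₀).totalDegree, (Fintype.card (Option (Fin (e + 1)))) * (∑ o, C o) + 1,
    2 + ∑ o, T₀ o, ?_, ?_, ?_⟩
  · have : 0 ≤ ∑ o, C o := Finset.sum_nonneg fun o _ => hC o
    positivity
  · have : 0 ≤ ∑ o, T₀ o := Finset.sum_nonneg fun o _ => by linarith [hT₀ o]
    linarith
  intro K _ _ hm io ξ T hT
  have hTT : ∀ o, T₀ o ≤ T := by
    intro o
    have h1 := Finset.single_le_sum (f := T₀) (fun o _ => by linarith [hT₀ o]) (Finset.mem_univ o)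
    linarith
  have hT1 : 1 ≤ T := by linarith [hT₀ none, hTT none]
  have hTp : 0 < T := by linarith
  have h6 : (1 : ℝ) ≤ T ^ ε := Real.one_le_rpow hT1 hε.le
  set Z : Set (X → ℂ) := {t | MvPolynomial.eval t (upX (D.coeff α₀)) = 0} with hZ
  have hZcov : Cov (D.coeff α₀).totalDegree 1 Z := by
    refine ⟨{upX (D.coeff α₀)}, by simp, ?_, ?_⟩
    · intro P hP
      rw [Finset.mem_singleton] at hP
      subst hP
      refine ⟨fun h0 => hα₀ (upX_inj (by rw [h0, map_zero])), ?_⟩
      exact Finset.sup_mono (MvPolynomial.support_map_subset _ _)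
    · intro t ht
      exact ⟨upX (D.coeff α₀), Finset.mem_singleton_self _, ht⟩
  let Bd : Option (Fin (e + 1)) → Set (X → ℂ) := fun o => (fun (s : X → K) i => io (s i)) ''
    BadG (MvPolynomial.map up2 (𝒢 o)) (fun (i : I) t => f (ι i) t) Lc K io (fun i => algebraMap Qbar ℂ (ξ i)) A T
  have hBd : ∀ o, Cov (∑ o, DD o) ⌊(∑ o, C o) * T ^ ε⌋₊ (Bd o) := by
    intro o
    refine (Hc o K hm io ξ T (hTT o)).mono (Finset.single_le_sum (f := DD) (fun _ _ => Nat.zero_le _)
      (Finset.mem_univ o)) (Nat.floor_le_floor ?_) (Set.Subset.refl _)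
    exact mul_le_mul_of_nonneg_right (Finset.single_le_sum (f := C) (fun o _ => hC o) (Finset.mem_univ o))
      (by positivity)
  have hun := Cov.biUnion (Finset.univ : Finset (Option (Fin (e + 1)))) Bd (fun o _ => hBd o)
  have hsub : (fun (s : X → K) i => io (s i)) '' ExcQ δ U f Lc K io ξ A T ⊆ (⋃ o ∈ Finset.univ, Bd o) ∪ Z := by
    rintro _ ⟨s, ⟨hs1, hs2, c, hc1, hc2, S, hS, hfS, hSF, a, haS, ha⟩, rfl⟩
    set t : X → ℂ := fun i => io (s i) with ht
    set P : Λ → ℂ := fun l => ∑ i, algebraMap Qbar ℂ (ξ i) * io (c l i : K) with hP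
    set e0 : MvPolynomial X Qbar →+* ℂ := (MvPolynomial.eval t).comp upX with he0
    by_contra hcon
    rw [Set.mem_union, not_or] at hcon
    obtain ⟨hcon1, hcon2⟩ := hcon
    have hno : ∀ o, spc (MvPolynomial.map up2 (𝒢 o)) t P ≠ 0 →
        MvPolynomial.eval (fun i => f (ι i) t) (spc (MvPolynomial.map up2 (𝒢 o)) t P) ≠ 0 := by
      intro o h1 h2
      exact hcon1 (Set.mem_iUnion₂.2 ⟨o, Finset.mem_univ _, s, ⟨hs1, hs2, c, hc1, h1, h2⟩, rfl⟩)
    -- the polynomials on the space
    set Dx : MvPolynomial I ℂ := MvPolynomial.map e0 D with hDx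
    have hDxs : spc (MvPolynomial.map up2 (𝒢 none)) t P = Dx := by
      rw [spc_up]
      have h5 : (MvPolynomial.eval₂Hom e0 P).comp MvPolynomial.C = e0 :=
        RingHom.ext fun y => MvPolynomial.eval₂_C e0 P y
      change MvPolynomial.map (MvPolynomial.eval₂Hom e0 P) (MvPolynomial.map MvPolynomial.C D) = _
      rw [MvPolynomial.map_map, h5]
    have hDx0 : Dx ≠ 0 := by
      intro h0
      apply hcon2
      have h1 := congrArg (MvPolynomial.coeff α₀) h0
      rw [hDx, MvPolynomial.coeff_map, MvPolynomial.coeff_zero] at h1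
      exact h1
    have hDxe : ∀ a : σ → ℂ, MvPolynomial.eval a (MvPolynomial.rename ι Dx) = D.eval₂ e0 (a ∘ ι) := by
      intro a
      rw [MvPolynomial.eval_rename, hDx, MvPolynomial.eval_map]
    set Rp : MvPolynomial σ ℂ := ∑ l, MvPolynomial.C (P l) * ∏ y, MvPolynomial.X y ^ (l y : ℕ) with hRp
    have hRpe : ∀ a : σ → ℂ, MvPolynomial.eval a Rp = ∑ l, P l * ∏ y, a y ^ (l y : ℕ) := by
      intro a
      rw [hRp, map_sum]
      refine Finset.sum_congr rfl fun l _ => ?_
      rw [map_mul, MvPolynomial.eval_C, map_prod]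
      congr 1
      refine Finset.prod_congr rfl fun y _ => ?_
      rw [map_pow, MvPolynomial.eval_X]
    set Tp : MvPolynomial σ ℂ := MvPolynomial.rename ι Dx * Rp with hTpd
    have hTpe : ∀ a : σ → ℂ, MvPolynomial.eval a Tp = D.eval₂ e0 (a ∘ ι) * ∑ l, P l * (lm l).eval₂ e0 a := by
      intro a
      rw [hTpd, map_mul, hDxe, hRpe]
      congr 1
      refine Finset.sum_congr rfl fun l _ => ?_
      rw [hlm]
    set 𝓡 : ℕ → MvPolynomial I ℂ := fun k =>
      MvPolynomial.map (MvPolynomial.eval₂Hom e0 P) (sw0 (q.coeff k)) with h𝓡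
    have hex : ∃ k, 𝓡 k ≠ 0 := by
      refine ⟨e, ?_⟩
      have h1 : q.coeff e = 1 := hq
      simp only [h𝓡, h1, map_one]
      exact one_ne_zero
    classical
    set k := Nat.find hex with hk
    have hk0 : 𝓡 k ≠ 0 := Nat.find_spec hex
    have hkmin : ∀ j < k, 𝓡 j = 0 := by
      intro j hj
      by_contra h0
      exact Nat.find_min hex hj h0
    have hke : k ≤ e := by
      apply Nat.find_min' hex
      have h1 : q.coeff e = 1 := hq
      simp only [h𝓡, h1, map_one]
      exact one_ne_zero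
    have hkv : MvPolynomial.eval (fun i => f (ι i) t) (𝓡 k) ≠ 0 := by
      have h1 := hno (some ⟨k, Nat.lt_succ_of_le hke⟩)
      rw [spc_up] at h1
      exact h1 hk0
    set Sp : MvPolynomial σ ℂ := ∑ j ∈ Finset.range (e + 1 - k), MvPolynomial.rename ι (𝓡 (j + k)) * Tp ^ j with hSp
    have hprod : ∀ b ∈ S, MvPolynomial.eval b (Tp ^ k) * MvPolynomial.eval b Sp = 0 := by
      intro b hb
      have h1 := hid t b (hSF hb) P
      have h4 : ∀ g : ℕ → ℂ, (∀ j < k, g j = 0) →
          ∑ j ∈ Finset.range (e + 1), g j = ∑ j ∈ Finset.range (e + 1 - k), g (k + j) := by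
        intro g hg
        have h2 : e + 1 = k + (e + 1 - k) := by omega
        conv_lhs => rw [h2, Finset.sum_range_add]
        rw [Finset.sum_eq_zero (fun j hj => hg j (Finset.mem_range.1 hj)), zero_add]
      rw [h4 _ (fun j hj => by
        have h3 := hkmin j hj
        simp only [h𝓡] at h3
        rw [h3, map_zero, zero_mul])] at h1
      rw [← h1, map_pow, hSp, map_sum, Finset.mul_sum]
      refine Finset.sum_congr rfl fun j _ => ?_
      have h5 : MvPolynomial.eval b (MvPolynomial.rename ι (𝓡 (j + k)) * Tp ^ j) =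
          MvPolynomial.eval (b ∘ ι) (𝓡 (j + k)) * MvPolynomial.eval b Tp ^ j := by
        rw [map_mul, map_pow, MvPolynomial.eval_rename]
      have h3 : MvPolynomial.map (MvPolynomial.eval₂Hom e0 P) (sw0 (q.coeff (k + j))) = 𝓡 (j + k) := by
        rw [add_comm j k]
      rw [h5, h3, hTpe, pow_add]
      ring
    have hT0 : MvPolynomial.eval (fun y => f y t) Tp = 0 := by
      rw [hTpd, map_mul, hRpe]
      have h1 : ∑ l, P l * ∏ y, (fun y => f y t) y ^ (l y : ℕ) = 0 := hc2
      rw [h1, mul_zero]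
    rcases hS _ _ hprod with h1 | h1
    · -- `T ^ k` vanishes
      have hkpos : k ≠ 0 := by
        intro h0
        have h2 := h1 _ hfS
        rw [h0, pow_zero, map_one] at h2
        exact one_ne_zero h2
      have h2 : ∀ b ∈ S, MvPolynomial.eval b (MvPolynomial.rename ι Dx) * MvPolynomial.eval b Rp = 0 := by
        intro b hb
        have h3 := h1 b hb
        rw [map_pow] at h3
        have h4 := pow_eq_zero_iff hkpos |>.1 h3
        rw [hTpd, map_mul] at h4
        exact h4
      rcases hS _ _ h2 with h3 | h3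
      · have h4 := h3 _ hfS
        rw [MvPolynomial.eval_rename] at h4
        refine hno none ?_ ?_
        · rw [hDxs]
          exact hDx0
        · rw [hDxs]
          exact h4
      · apply ha
        have h4 := h3 a haS
        rw [hRpe] at h4
        exact h4
    · have h2 := h1 _ hfS
      rw [hSp, map_sum] at h2
      have h3 : e + 1 - k = (e - k) + 1 := by omega
      rw [h3, Finset.sum_range_succ'] at h2
      rw [Finset.sum_eq_zero, zero_add] at h2
      · rw [map_mul, pow_zero, map_one, mul_one, MvPolynomial.eval_rename, zero_add] at h2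
        exact hkv h2
      · intro j _
        rw [map_mul, map_pow, hT0]
        simp
  have h1 := (hun.mono (Nat.le_add_right _ (D.coeff α₀).totalDegree) le_rfl (Set.Subset.refl _)).union
    (hZcov.mono (Nat.le_add_left _ (∑ o, DD o)) le_rfl (Set.Subset.refl _))
  refine h1.mono le_rfl ?_ hsub
  rw [Finset.card_univ]
  have hCs : 0 ≤ ∑ o, C o := Finset.sum_nonneg fun o _ => hC o
  apply Nat.le_floor
  push_cast
  have h8 : ((⌊(∑ o, C o) * T ^ ε⌋₊ : ℕ) : ℝ) ≤ (∑ o, C o) * T ^ ε := Nat.floor_le (by positivity)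
  have h9 : (0 : ℝ) ≤ (Fintype.card (Option (Fin (e + 1))) : ℝ) := Nat.cast_nonneg _
  calc (Fintype.card (Option (Fin (e + 1))) : ℝ) * (⌊(∑ o, C o) * T ^ ε⌋₊ : ℝ) + 1 ≤
        (Fintype.card (Option (Fin (e + 1))) : ℝ) * ((∑ o, C o) * T ^ ε) + T ^ ε :=
        add_le_add (mul_le_mul_of_nonneg_left h8 h9) h6
    _ = _ := by ring

end Pool.Agent.N207.GQ
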