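import Pool.Agent.N207.GQ.Stm
import Pool.Agent.N207.GS.Count
import Pool.Agent.Y890.MV.Tor

/-!
# Counting the zeros of polynomials in functions which are independent over the algebraic numbers
-/

set_option autoImplicit false
set_option linter.unusedSectionVars false

open NumberField

namespace Pool.Agent.N207.GQ

open Pool.Agent.Y890.MV Pool.Agent.Y890.SP Pool.Agent.N207.GS
open Pool.Agent.Y124 (Cov)

/-- extension of the coefficients -/
noncomputable def upX {X : Type} : MvPolynomial X Qbar →+* MvPolynomial X ℂ := MvPolynomial.map (algebraMap Qbar ℂ)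

/-- extension of the coefficients -/
noncomputable def up2 {σ X : Type} : MvPolynomial σ (MvPolynomial X Qbar) →+* MvPolynomial σ (MvPolynomial X ℂ) :=
  MvPolynomial.map upX

theorem upX_inj {X : Type} : Function.Injective (upX (X := X)) :=
  MvPolynomial.map_injective _ (algebraMap Qbar ℂ).injective

theorem upX_eval {X : Type} (s : X → Qbar) (p : MvPolynomial X Qbar) :
    MvPolynomial.eval (fun i => algebraMap Qbar ℂ (s i)) (upX p) = algebraMap Qbar ℂ (MvPolynomial.eval s p) := by
  rw [upX, MvPolynomial.eval_map]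
  have := MvPolynomial.eval₂_comp_left (algebraMap Qbar ℂ) (RingHom.id Qbar) s p
  rw [RingHom.comp_id, MvPolynomial.eval₂_id] at this
  exact this.symm

theorem up2_eval {X σ : Type} (s : X → Qbar) (P : σ → Qbar) (p : MvPolynomial σ (MvPolynomial X Qbar)) :
    MvPolynomial.eval₂ (MvPolynomial.eval fun i => algebraMap Qbar ℂ (s i)) (fun l => algebraMap Qbar ℂ (P l))
      (up2 p) = algebraMap Qbar ℂ (MvPolynomial.eval₂ (MvPolynomial.eval s) P p) := by
  rw [up2, MvPolynomial.eval₂_map, MvPolynomial.hom_eval₂]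
  congr 1
  exact RingHom.ext fun q => upX_eval s q

/-- values of the polynomials with coefficients extended: monomials of the field -/
theorem sum_mat {S : Type} [CommRing S] {r : ℕ} (d : S) {Λ : Type} [Fintype Λ] (w : Λ → S)
    (N : Λ → Matrix (Fin (r + 1)) (Fin (r + 1)) S) (v : Fin (r + 1) → S) (m : Λ → S) (hv : v 0 = 1)
    (h : ∀ l j, d * m l * v j = ∑ i, N l i j * v i) (hc : ∑ l, w l * m l = 0) :
    (∑ l, w l • N l).det = 0 := by
  have h1 : Matrix.vecMul v (∑ l, w l • N l) = 0 := by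
    funext j
    simp only [Matrix.vecMul, dotProduct, Matrix.sum_apply, Matrix.smul_apply, smul_eq_mul, Pi.zero_apply,
      Finset.mul_sum]
    rw [Finset.sum_comm]
    have h2 : ∀ l, ∑ i, v i * (w l * N l i j) = w l * (d * m l * v j) := by
      intro l
      rw [h, Finset.mul_sum]
      exact Finset.sum_congr rfl fun i _ => by ring
    simp only [h2]
    have h3 : ∑ l, w l * (d * m l * v j) = (∑ l, w l * m l) * (d * v j) := by
      rw [Finset.sum_mul]
      exact Finset.sum_congr rfl fun i _ => by ring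
    rw [h3, hc, zero_mul]
  have h2 : Matrix.vecMul (Matrix.vecMul v (∑ l, w l • N l)) (∑ l, w l • N l).adjugate = 0 := by
    rw [h1, Matrix.zero_vecMul]
  rw [Matrix.vecMul_vecMul, Matrix.mul_adjugate] at h2
  have h3 := congrFun h2 0
  rw [Matrix.vecMul_smul, Matrix.vecMul_one, Pi.smul_apply, hv] at h3
  simpa using h3

section gen

variable {X I J Λ Λ' : Type} [Fintype Λ'] {r : ℕ}

/-- the generic determinant -/
noncomputable def detG (N : Λ' → Matrix (Fin (r + 1)) (Fin (r + 1)) (MvPolynomial J (MvPolynomial X ℂ)))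
    (g : Λ' → MvPolynomial Λ (MvPolynomial X ℂ)) : MvPolynomial J (MvPolynomial Λ (MvPolynomial X ℂ)) :=
  (∑ α, (MvPolynomial.C (g α) : MvPolynomial J (MvPolynomial Λ (MvPolynomial X ℂ))) •
    (N α).map (MvPolynomial.map MvPolynomial.C)).det

/-- the value of the generic determinant -/
theorem detG_map (N : Λ' → Matrix (Fin (r + 1)) (Fin (r + 1)) (MvPolynomial J (MvPolynomial X ℂ)))
    (g : Λ' → MvPolynomial Λ (MvPolynomial X ℂ)) {S : Type} [CommRing S]
    (Φ : MvPolynomial J (MvPolynomial Λ (MvPolynomial X ℂ)) →+* S)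
    (Φ' : MvPolynomial J (MvPolynomial X ℂ) →+* S) (hΦ : ∀ p, Φ (MvPolynomial.map MvPolynomial.C p) = Φ' p) :
    Φ (detG N g) = (∑ α, Φ (MvPolynomial.C (g α)) • (N α).map Φ').det := by
  have key : ∀ M : Matrix (Fin (r + 1)) (Fin (r + 1)) (MvPolynomial J (MvPolynomial Λ (MvPolynomial X ℂ))),
      Φ M.det = (M.map Φ).det := fun M => RingHom.map_det
        (R := MvPolynomial J (MvPolynomial Λ (MvPolynomial X ℂ))) (n := Fin (r + 1)) Φ M
  refine (key _).trans ?_
  congr 1
  change Φ.mapMatrix _ = _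
  rw [map_sum]
  refine Finset.sum_congr rfl fun α _ => ?_
  ext i j
  simp only [RingHom.mapMatrix_apply, Matrix.map_apply, Matrix.smul_apply, smul_eq_mul, map_mul, hΦ]

end gen

/-- **Counting, over the algebraic numbers.** -/
theorem countQ (hMat : StmMat) (hEl : StmElim) (hInd : StmInd) {X I Λ : Type} [Fintype X] [DecidableEq X] [Nonempty X]
    [Fintype I] [DecidableEq I] [Fintype Λ] [DecidableEq Λ] {U : Set (X → ℂ)} (hU : IsPreconnected U)
    (hUo : IsOpen U) (hne : U.Nonempty) (y : I → (X → ℂ) → ℂ) (hy : ∀ i, AnalyticOnNhd ℂ (y i) U)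
    (hind : ∀ p : MvPolynomial I (MvPolynomial X Qbar), (∀ z ∈ U, evM y z (up2 p) = 0) → p = 0)
    (𝒢 : MvPolynomial I (MvPolynomial Λ (MvPolynomial X Qbar)))
    (Lc : Set (X → ℂ)) (hLc : IsCompact Lc) (hLU : Lc ⊆ U) (h : Type) [Fintype h] [DecidableEq h]
    (m : ℕ) (A ε : ℝ) (hε : 0 < ε) :
    ∃ (D : ℕ) (C T₀ : ℝ), 0 ≤ C ∧ 2 ≤ T₀ ∧
      ∀ (K : Type) [Field K] [NumberField K], Module.finrank ℚ K ≤ m → ∀ (io : K →+* ℂ) (ξ : h → Qbar) (T : ℝ),
        T₀ ≤ T → Cov D ⌊C * T ^ ε⌋₊ ((fun (s : X → K) i => io (s i)) ''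
          BadG (MvPolynomial.map up2 𝒢) y Lc K io (fun i => algebraMap Qbar ℂ (ξ i)) A T) := by
  classical
  obtain ⟨L, _, _, _, F, hz, hfrac⟩ := exists_fieldM hU hUo hne hy
  let Λ' : Type := {α // α ∈ 𝒢.support}
  let lm : Λ' → MvPolynomial I (MvPolynomial X ℂ) := fun α => MvPolynomial.monomial α.1 1
  obtain ⟨J, _, _, ι, r, b, D, N, hJ, hD, hb, hN, hsing⟩ := hMat (MvPolynomial X ℂ) L I Λ' F hfrac lm
  let Δ : MvPolynomial J (MvPolynomial Λ' (MvPolynomial X ℂ)) := detG N fun α => MvPolynomial.X α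
  let 𝒢' : MvPolynomial J (MvPolynomial Λ (MvPolynomial X ℂ)) := detG N fun α => up2 (𝒢.coeff α.1)
  -- the hypersurfaces
  let Ω := AlgebraicClosure L
  let φ : L →+* Ω := algebraMap L Ω
  let ψ : MvPolynomial X ℂ →+* Ω := φ.comp (algebraMap (MvPolynomial X ℂ) L)
  have hAL : Function.Injective (algebraMap (MvPolynomial X ℂ) L) := FaithfulSMul.algebraMap_injective _ L
  have hψ : Function.Injective (fun p : MvPolynomial X Qbar => ψ (MvPolynomial.map (algebraMap Qbar ℂ) p)) := by
    intro p q hpq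
    exact upX_inj (hAL (φ.injective hpq))
  have hH : ∀ α₀ : Λ', ∃ h : MvPolynomial X Qbar, h ≠ 0 ∧ ∀ (s : X → Qbar) (c : Λ' → Qbar),
      MvPolynomial.eval s h ≠ 0 → c α₀ = 1 →
      MvPolynomial.map (MvPolynomial.eval₂Hom (MvPolynomial.eval fun i => algebraMap Qbar ℂ (s i))
        fun l => algebraMap Qbar ℂ (c l)) Δ ≠ 0 := by
    intro α₀
    refine hEl Qbar ℂ Ω X Λ' J Δ ψ (φ ∘ F ∘ ι) α₀ hψ ?_
    intro c hc halg h0
    have h1 := detG_map N (fun α => MvPolynomial.X α)
      (MvPolynomial.eval₂Hom (MvPolynomial.eval₂Hom ψ c) (φ ∘ F ∘ ι))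
      (φ.comp (MvPolynomial.aeval (F ∘ ι)).toRingHom) (by
        intro p
        simp only [MvPolynomial.coe_eval₂Hom, RingHom.comp_apply, MvPolynomial.eval₂_map]
        have h2 : (MvPolynomial.eval₂Hom ψ c).comp MvPolynomial.C = ψ := by
          ext <;> simp
        rw [h2]
        change _ = φ (MvPolynomial.aeval (F ∘ ι) p)
        rw [MvPolynomial.aeval_def, MvPolynomial.hom_eval₂]
        rfl)
    have h2 : (MvPolynomial.eval₂Hom (MvPolynomial.eval₂Hom ψ c) (φ ∘ F ∘ ι)) (detG N fun α => MvPolynomial.X α) = 0 :=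
      h0
    rw [h2] at h1
    have h3 : Matrix.det (∑ l, c l • (N l).map fun p => φ (MvPolynomial.aeval (F ∘ ι) p)) = 0 := by
      rw [h1]
      congr 1
      refine Finset.sum_congr rfl fun l _ => ?_
      simp only [MvPolynomial.coe_eval₂Hom, MvPolynomial.eval₂_C, MvPolynomial.eval₂_X]
      rfl
    obtain ⟨τ, hτ, hτ0⟩ := hsing Ω φ c h3
    -- a relation with algebraic coefficients
    let ψB : MvPolynomial X Qbar →+* Ω := ψ.comp (MvPolynomial.map (algebraMap Qbar ℂ))
    let pp : MvPolynomial I Ω := ∑ l : Λ', MvPolynomial.monomial l.1 (c l)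
    have hpc : ∀ l : Λ', pp.coeff l.1 = c l := by
      intro l
      rw [MvPolynomial.coeff_sum, Finset.sum_eq_single l]
      · rw [MvPolynomial.coeff_monomial, if_pos rfl]
      · intro b _ hb
        rw [MvPolynomial.coeff_monomial, if_neg fun h => hb (Subtype.ext h)]
      · simp
    have h4 := hInd (MvPolynomial X Qbar) Ω I ψB (fun i => τ (F i)) (by
      intro p hp
      apply hind
      rw [← hz]
      apply τ.injective
      rw [map_zero, ← hp, MvPolynomial.aeval_def, MvPolynomial.hom_eval₂, up2, MvPolynomial.eval₂_map]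
      congr 1
      apply RingHom.ext
      intro q
      change τ (algebraMap _ L (upX q)) = φ (algebraMap _ L _)
      rw [hτ]
      rfl) pp (by
      intro mm
      by_cases hm : mm ∈ 𝒢.support
      · obtain ⟨q, hq, hq0⟩ := halg ⟨mm, hm⟩
        refine ⟨q, hq, ?_⟩
        rw [hpc ⟨mm, hm⟩]
        exact hq0
      · refine ⟨Polynomial.X, Polynomial.X_ne_zero, ?_⟩
        rw [Polynomial.eval₂_X, MvPolynomial.coeff_sum]
        apply Finset.sum_eq_zero
        intro l _
        rw [MvPolynomial.coeff_monomial, if_neg]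
        rintro rfl
        exact hm l.2) (by
      rw [← hτ0, map_sum]
      refine Finset.sum_congr rfl fun l _ => ?_
      rw [MvPolynomial.eval_monomial, MvPolynomial.aeval_monomial, map_one, one_mul, Finsupp.prod, Finsupp.prod,
        map_prod]
      congr 1
      exact Finset.prod_congr rfl fun i _ => (map_pow τ _ _).symm)
    have h5 := hpc α₀
    rw [h4, MvPolynomial.coeff_zero, hc] at h5
    exact zero_ne_one h5
  choose hh hh0 hh1 using hH
  -- the count
  have han : ∀ j, ∀ t ∈ Lc, AnalyticAt ℂ ((fun (j : J) t => y (ι j) t) j) t := fun j t ht => hy _ t (hLU ht)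
  have hloc : ∀ t ∈ Lc, LocIndM (fun (j : J) t => y (ι j) t) t := fun t ht => locIndM_of hU hy F hz ι hJ t (hLU ht)
  obtain ⟨D₀, C, T₀, hC, hT₀, Hc⟩ := count 𝒢' (fun (j : J) t => y (ι j) t) Lc hLc han hloc h m A ε hε
  refine ⟨D₀ + ∑ α : Λ', (hh α).totalDegree, C + Fintype.card Λ', T₀, by positivity, hT₀, ?_⟩
  intro K _ _ hm io ξ T hT
  have hT1 : 1 ≤ T := by linarith
  have hTe : (1 : ℝ) ≤ T ^ ε := Real.one_le_rpow hT1 hε.le
  let Z : Λ' → Set (X → ℂ) := fun α => {t | MvPolynomial.eval t (upX (hh α)) = 0}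
  have hZcov : ∀ α, Cov (∑ α : Λ', (hh α).totalDegree) 1 (Z α) := by
    intro α
    refine ⟨{upX (hh α)}, by simp, ?_, ?_⟩
    · intro P hP
      rw [Finset.mem_singleton] at hP
      subst hP
      refine ⟨fun h0 => hh0 α (upX_inj (by rw [h0, map_zero])), ?_⟩
      refine le_trans (Finset.sup_mono (MvPolynomial.support_map_subset _ _)) ?_
      exact Finset.single_le_sum (f := fun α : Λ' => (hh α).totalDegree) (fun _ _ => Nat.zero_le _) (Finset.mem_univ α)
    · intro t ht
      exact ⟨upX (hh α), Finset.mem_singleton_self _, ht⟩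
  have hZun := Cov.biUnion (Finset.univ : Finset Λ') Z (fun α _ => hZcov α)
  have hsub : (fun (s : X → K) i => io (s i)) ''
      BadG (MvPolynomial.map up2 𝒢) y Lc K io (fun i => algebraMap Qbar ℂ (ξ i)) A T ⊆
      ((fun (s : X → K) i => io (s i)) '' BadG 𝒢' (fun (j : J) t => y (ι j) t) Lc K io
        (fun i => algebraMap Qbar ℂ (ξ i)) A T) ∪ ⋃ α ∈ Finset.univ, Z α := by
    rintro _ ⟨s, ⟨hs1, hs2, c, hc1, hc2, hc3⟩, rfl⟩
    set t : X → ℂ := fun i => io (s i) with ht
    set P : Λ → ℂ := fun l => ∑ i, algebraMap Qbar ℂ (ξ i) * io (c l i : K) with hP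
    let sQ : X → Qbar := fun i => ioQ io (s i)
    let PQ : Λ → Qbar := fun l => ∑ i, ξ i * ioQ io (c l i : K)
    have hPQ : P = fun l => algebraMap Qbar ℂ (PQ l) := by
      funext l
      simp only [hP, PQ, map_sum, map_mul]
      rfl
    have hsQ : t = fun i => algebraMap Qbar ℂ (sQ i) := rfl
    -- the coefficients
    let cQ : Λ' → Qbar := fun α => MvPolynomial.eval₂ (MvPolynomial.eval sQ) PQ (𝒢.coeff α.1)
    let e : MvPolynomial Λ (MvPolynomial X ℂ) →+* ℂ := MvPolynomial.eval₂Hom (MvPolynomial.eval t) P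
    have hcQ : ∀ α : Λ', e (up2 (𝒢.coeff α.1)) = algebraMap Qbar ℂ (cQ α) := by
      intro α
      change MvPolynomial.eval₂ (MvPolynomial.eval t) P (up2 (𝒢.coeff α.1)) = _
      rw [hPQ, hsQ]
      exact up2_eval sQ PQ _
    have hcoef : ∀ α, (spc (MvPolynomial.map up2 𝒢) t P).coeff α = e (up2 (𝒢.coeff α)) := by
      intro α
      change (MvPolynomial.map e (MvPolynomial.map up2 𝒢)).coeff α = _
      rw [MvPolynomial.coeff_map, MvPolynomial.coeff_map]
    obtain ⟨α₀, hα₀⟩ := MvPolynomial.ne_zero_iff.1 hc2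
    rw [hcoef] at hα₀
    have hα₀s : α₀ ∈ 𝒢.support := by
      rw [MvPolynomial.mem_support_iff]
      intro h0
      rw [h0, map_zero, map_zero] at hα₀
      exact hα₀ rfl
    have hne0 : cQ ⟨α₀, hα₀s⟩ ≠ 0 := by
      intro h0
      apply hα₀
      rw [hcQ ⟨α₀, hα₀s⟩, h0, map_zero]
    by_cases hZ0 : t ∈ Z ⟨α₀, hα₀s⟩
    · exact Or.inr (Set.mem_iUnion₂.2 ⟨_, Finset.mem_univ _, hZ0⟩)
    left
    have hh2 : MvPolynomial.eval sQ (hh ⟨α₀, hα₀s⟩) ≠ 0 := by
      intro h0
      apply hZ0
      change MvPolynomial.eval t (upX (hh ⟨α₀, hα₀s⟩)) = 0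
      rw [hsQ, upX_eval, h0, map_zero]
    -- the relation
    have hrel : ∑ α : Λ', algebraMap Qbar ℂ (cQ α) * evM y t (lm α) = 0 := by
      rw [MvPolynomial.eval_eq, ] at hc3
      have h1 : ∑ α : Λ', algebraMap Qbar ℂ (cQ α) * evM y t (lm α) =
          ∑ α ∈ 𝒢.support, e (up2 (𝒢.coeff α)) * ∏ i ∈ α.support, y i t ^ α i := by
        rw [← Finset.sum_coe_sort 𝒢.support]
        refine Finset.sum_congr rfl fun α _ => ?_
        rw [hcQ α]
        congr 1
        change MvPolynomial.eval₂ _ _ (MvPolynomial.monomial α.1 1) = _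
        rw [MvPolynomial.eval₂_monomial, map_one, one_mul, Finsupp.prod]
      rw [h1, ← hc3]
      symm
      refine Finset.sum_subset_zero_on_sdiff ?_ ?_ ?_
      · intro α hα
        rw [MvPolynomial.mem_support_iff, hcoef] at hα
        rw [MvPolynomial.mem_support_iff]
        intro h0
        rw [h0, map_zero, map_zero] at hα
        exact hα rfl
      · intro α hα
        rw [Finset.mem_sdiff, MvPolynomial.notMem_support_iff, hcoef] at hα
        rw [hα.2, zero_mul]
      · intro α _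
        rw [hcoef]
    let eJ : MvPolynomial J (MvPolynomial X ℂ) →+* ℂ :=
      MvPolynomial.eval₂Hom (MvPolynomial.eval t) (fun j => y (ι j) t)
    -- the determinant vanishes
    have hdet : (∑ α : Λ', algebraMap Qbar ℂ (cQ α) • (N α).map eJ).det = 0 := by
      refine sum_mat (eJ D) (fun α => algebraMap Qbar ℂ (cQ α)) (fun α => (N α).map eJ)
        (fun i => evM y t (b i)) (fun α => evM y t (lm α)) ?_ ?_ hrel
      · rw [hb]
        exact MvPolynomial.eval₂_one _ _
      · intro l j
        have h1 := hN l j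
        have h2 : MvPolynomial.aeval F (MvPolynomial.rename ι D * lm l * b j -
            ∑ i, MvPolynomial.rename ι (N l i j) * b i) = 0 := by
          rw [map_sub, map_sum, sub_eq_zero, map_mul, map_mul, MvPolynomial.aeval_rename]
          rw [h1]
          refine Finset.sum_congr rfl fun i _ => ?_
          rw [map_mul, MvPolynomial.aeval_rename]
        rw [hz] at h2
        have h3 := h2 t (hLU hs2)
        have h4 : ∀ q : MvPolynomial J (MvPolynomial X ℂ), evM y t (MvPolynomial.rename ι q) = eJ q := by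
          intro q
          unfold evM
          rw [MvPolynomial.eval₂_rename]
          rfl
        let ev : MvPolynomial I (MvPolynomial X ℂ) →+* ℂ :=
          MvPolynomial.eval₂Hom (MvPolynomial.eval t) (fun i => y i t)
        have h5 : ∀ q, evM y t q = ev q := fun q => rfl
        have h4' : ∀ q : MvPolynomial J (MvPolynomial X ℂ), ev (MvPolynomial.rename ι q) = eJ q := h4
        rw [h5, map_sub, map_mul, map_mul, map_sum, sub_eq_zero] at h3
        simp only [map_mul, h4'] at h3
        exact h3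
    refine ⟨s, ⟨hs1, hs2, c, hc1, ?_, ?_⟩, rfl⟩
    · -- not identically zero
      change spc 𝒢' t P ≠ 0
      intro h0
      have h1 : MvPolynomial.map e 𝒢' = 0 := h0
      rw [detG_map N (fun α : Λ' => up2 (𝒢.coeff α.1)) (MvPolynomial.map e) (MvPolynomial.map (MvPolynomial.eval t))
        (by
          intro p
          rw [MvPolynomial.map_map]
          congr 1
          apply RingHom.ext
          intro q
          simp [e])] at h1
      have h2 := hh1 ⟨α₀, hα₀s⟩ sQ (fun α => (cQ ⟨α₀, hα₀s⟩)⁻¹ * cQ α) hh2 (inv_mul_cancel₀ hne0)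
      apply h2
      have h4 : (MvPolynomial.eval₂Hom (MvPolynomial.eval fun i => algebraMap Qbar ℂ (sQ i))
            fun l : Λ' => algebraMap Qbar ℂ ((cQ ⟨α₀, hα₀s⟩)⁻¹ * cQ l)).comp MvPolynomial.C = MvPolynomial.eval t :=
        RingHom.ext fun q => MvPolynomial.eval₂_C _ _ _
      rw [detG_map N (fun α : Λ' => MvPolynomial.X α) _ (MvPolynomial.map (MvPolynomial.eval t)) (by
        intro p
        rw [MvPolynomial.map_map, h4])]
      have h3 : ∑ α : Λ', (MvPolynomial.map (MvPolynomial.eval₂Hom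
            (MvPolynomial.eval fun i => algebraMap Qbar ℂ (sQ i))
            fun l : Λ' => algebraMap Qbar ℂ ((cQ ⟨α₀, hα₀s⟩)⁻¹ * cQ l)) : _ →+* MvPolynomial J ℂ)
            (MvPolynomial.C (MvPolynomial.X α)) • (N α).map (MvPolynomial.map (MvPolynomial.eval t)) =
          (MvPolynomial.C (algebraMap Qbar ℂ (cQ ⟨α₀, hα₀s⟩)⁻¹) : MvPolynomial J ℂ) •
            ∑ α : Λ', (MvPolynomial.map e (MvPolynomial.C (up2 (𝒢.coeff α.1))) : MvPolynomial J ℂ) •
              (N α).map (MvPolynomial.map (MvPolynomial.eval t)) := by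
        rw [Finset.smul_sum]
        refine Finset.sum_congr rfl fun α _ => ?_
        rw [smul_smul, MvPolynomial.map_C, MvPolynomial.map_C, ← map_mul, hcQ, ← map_mul]
        congr 2
        simp only [MvPolynomial.coe_eval₂Hom, MvPolynomial.eval₂_X]
      rw [h3, Matrix.det_smul, h1, mul_zero]
    · -- vanishes
      change MvPolynomial.eval (fun j => y (ι j) t) (spc 𝒢' t P) = 0
      have h1 := detG_map N (fun α : Λ' => up2 (𝒢.coeff α.1))
        ((MvPolynomial.eval (fun j => y (ι j) t)).comp (MvPolynomial.map e)) eJ (by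
          intro p
          rw [RingHom.comp_apply, MvPolynomial.map_map, MvPolynomial.eval_map]
          congr 1
          apply RingHom.ext
          intro q
          simp [e])
      change ((MvPolynomial.eval (fun j => y (ι j) t)).comp (MvPolynomial.map e)) 𝒢' = 0
      rw [h1, ← hdet]
      congr 1
      refine Finset.sum_congr rfl fun α _ => ?_
      rw [RingHom.comp_apply, MvPolynomial.map_C, MvPolynomial.eval_C, hcQ]
  have h1 := ((Hc K hm io (fun i => algebraMap Qbar ℂ (ξ i)) T hT).mono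
      (Nat.le_add_right D₀ (∑ α : Λ', (hh α).totalDegree)) le_rfl (Set.Subset.refl _)).union
    (hZun.mono (Nat.le_add_left _ D₀) le_rfl (Set.Subset.refl _))
  refine h1.mono le_rfl ?_ hsub
  rw [Finset.card_univ, mul_one]
  apply Nat.le_floor
  push_cast
  have h8 : ((⌊C * T ^ ε⌋₊ : ℕ) : ℝ) ≤ C * T ^ ε := Nat.floor_le (by positivity)
  have h9 : (0 : ℝ) ≤ (Fintype.card Λ' : ℝ) := Nat.cast_nonneg _
  calc ((⌊C * T ^ ε⌋₊ : ℕ) : ℝ) + (Fintype.card Λ' : ℝ) ≤ C * T ^ ε + (Fintype.card Λ' : ℝ) * T ^ ε := by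
        nlinarith
    _ = _ := by ring

end Pool.Agent.N207.GQ
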