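import Pool.Agent.N207.GQ.Comp
import Pool.Agent.N207.GS.Mon

/-!
# All degrees, heights and number fields at once, over the algebraic numbers
-/

set_option autoImplicit false
set_option linter.unusedSectionVars false

open NumberField Filter

namespace Pool.Agent.N207.GQ

open Pool.Agent.Y890.MV Pool.Agent.Y890.SP Pool.Agent.N207.GS
open Pool.Agent.Y124 (Cov)

/-- **The exceptional points**: some relation with algebraic coefficients does not hold on some irreducible subset of the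
fibre, over the algebraic numbers, through the point -/
def ExcA {X σ : Type} [Fintype X] (U : Set (X → ℂ)) (f : σ → (X → ℂ) → ℂ)
    (K : Type) [Field K] [NumberField K] (io : K →+* ℂ) (k : ℕ) (ξ : Fin k → ℂ) (T : ℝ) : Set (X → K) :=
  {s | (∀ i, Y120.HtLe K T (s i)) ∧ (fun i => io (s i)) ∈ InnerM U k ∧ (∀ i, IsAlgebraic ℚ (ξ i)) ∧
    ∃ R : MvPolynomial σ ℂ, (∀ y, R.degreeOf y ≤ k) ∧
    (∀ m, ∃ c : Fin k → 𝓞 K, (∀ i (φ : K →+* ℂ), ‖φ (c i : K)‖ ≤ T ^ (k : ℝ)) ∧
      R.coeff m = ∑ i, ξ i * io (c i : K)) ∧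
    MvPolynomial.eval (fun y => f y fun i => io (s i)) R = 0 ∧
    ∃ S : Set (σ → ℂ), Irr S ∧ (fun y => f y fun i => io (s i)) ∈ S ∧
      S ⊆ FibQ U f (fun i => io (s i)) ∧ ∃ a ∈ S, MvPolynomial.eval a R ≠ 0}

theorem excA_few (hMat : StmMat) (hEl : StmElim) (hInd : StmInd) (hSub : StmSub) {X σ : Type} [Fintype X]
    [DecidableEq X] [Nonempty X] [Fintype σ] [DecidableEq σ] {U : Set (X → ℂ)}
    {f : σ → (X → ℂ) → ℂ} (hU : IsPreconnected U) (hUo : IsOpen U) (hne : U.Nonempty)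
    (hf : ∀ i, AnalyticOnNhd ℂ (f i) U) :
    Few (X := X) fun K _ _ io k ξ T => ExcA U f K io k ξ T := by
  classical
  refine few_of _ (fun K _ _ io k ξ T s hs => hs.1) fun k ε hk hε => ?_
  obtain ⟨D, C, T₀, hC, hT₀, H⟩ := compQ hMat hEl hInd hSub hU hUo hne hf (InnerM U k) (innerM_compact _ _)
    (innerM_sub _ hk) k (Fin k) k k ε hε
  refine ⟨D, C, T₀, hC, hT₀, fun K _ _ hK io ξ T hT => ?_⟩
  by_cases hξ : ∀ i, IsAlgebraic ℚ (ξ i)
  · let ξQ : Fin k → Qbar := fun i => ⟨ξ i, (mem_algebraicClosure_iff).2 (hξ i)⟩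
    have hξQ : ∀ i, algebraMap Qbar ℂ (ξQ i) = ξ i := fun i => rfl
    refine (H K hK io ξQ T hT).mono le_rfl le_rfl (Set.image_mono ?_)
    rintro s ⟨h1, h2, -, R, h3, h4, h5, S, h6, h7, h8, a, h9, h10⟩
    choose c hc hc' using h4
    refine ⟨h1, h2, fun l => c (Finsupp.equivFunOnFinite.symm fun y => (l y : ℕ)), fun l i φ => hc _ i φ, ?_, S, h6,
      h7, h8, a, h9, ?_⟩
    · rw [← h5, ← Y119.PLM.sum_expM h3]
      refine Finset.sum_congr rfl fun l _ => ?_
      rw [hc']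
      rfl
    · rw [← Y119.PLM.sum_expM h3] at h10
      intro h
      apply h10
      rw [← h]
      refine Finset.sum_congr rfl fun l _ => ?_
      rw [hc']
      rfl
  · have h0 : (fun (s : X → K) i => io (s i)) '' ExcA U f K io k ξ T = ∅ := by
      rw [Set.image_eq_empty, Set.eq_empty_iff_forall_notMem]
      rintro s ⟨-, -, h, -⟩
      exact hξ h
    rw [h0]
    exact ⟨∅, by simp, by simp, by simp⟩

end Pool.Agent.N207.GQ
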