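import Mathlib

/-!
# Relations over the algebraic numbers: statements of the algebraic parts
-/

set_option autoImplicit false

namespace Pool.Agent.N207.GQ

/-- **MAT.** A finitely generated field extension `L` of (the fraction field of) `A`, `L = Frac A[F]`, is finite over
the field generated by a transcendence basis `F ∘ ι`; it has a basis `b` in `A[F]` with `b 0 = 1`. `N l` is `D` times
the matrix of the multiplication by `lm l (F)` in the basis `b`. If `∑ c l N l` is singular over an algebraically closed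
field `Ω ⊇ L`, then there is a second embedding `τ` of `L` in `Ω`, equal to the first one `φ` on `A`, with
`∑ c l τ (lm l (F)) = 0`. -/
def StmMat : Prop :=
  ∀ (A L : Type) [CommRing A] [IsDomain A] [Field L] [Algebra A L] [FaithfulSMul A L] (σ Λ : Type) [Fintype σ]
    [Fintype Λ] (F : σ → L),
    (∀ l : L, ∃ p q : MvPolynomial σ A, MvPolynomial.aeval F q ≠ 0 ∧
      MvPolynomial.aeval F q * l = MvPolynomial.aeval F p) →
    ∀ lm : Λ → MvPolynomial σ A,
    ∃ (J : Type) (_ : Fintype J) (_ : DecidableEq J) (ι : J → σ) (r : ℕ) (b : Fin (r + 1) → MvPolynomial σ A)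
      (D : MvPolynomial J A) (N : Λ → Matrix (Fin (r + 1)) (Fin (r + 1)) (MvPolynomial J A)),
      AlgebraicIndependent A (F ∘ ι) ∧ D ≠ 0 ∧ b 0 = 1 ∧
      (∀ l j, MvPolynomial.aeval (F ∘ ι) D * MvPolynomial.aeval F (lm l) * MvPolynomial.aeval F (b j) =
        ∑ i, MvPolynomial.aeval (F ∘ ι) (N l i j) * MvPolynomial.aeval F (b i)) ∧
      ∀ (Ω : Type) [Field Ω] [IsAlgClosed Ω] (φ : L →+* Ω) (c : Λ → Ω),
        Matrix.det (∑ l, c l • (N l).map fun p => φ (MvPolynomial.aeval (F ∘ ι) p)) = 0 →
        ∃ τ : L →+* Ω, (∀ a : A, τ (algebraMap A L a) = φ (algebraMap A L a)) ∧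
          ∑ l, c l * τ (MvPolynomial.aeval F (lm l)) = 0

/-- **ELIM.** If a polynomial `Δ` over `C` does not vanish at any point over the generic point whose coordinates `c l` are
algebraic over `Q(x)`, with `c α = 1`, then for all `s` in `Q ^ X` outside a hypersurface it does not vanish at any point
over `s` with coordinates in `Q` and `c α = 1`. -/
def StmElim : Prop :=
  ∀ (Q C Ω : Type) [Field Q] [Field C] [Algebra Q C] [Field Ω] [IsAlgClosed Ω] (X Λ J : Type) [Finite X] [Finite Λ]
    (Δ : MvPolynomial J (MvPolynomial Λ (MvPolynomial X C))) (ψ : MvPolynomial X C →+* Ω) (η : J → Ω) (α : Λ),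
    Function.Injective (fun p : MvPolynomial X Q => ψ (MvPolynomial.map (algebraMap Q C) p)) →
    (∀ c : Λ → Ω, c α = 1 →
      (∀ l, ∃ p : Polynomial (MvPolynomial X Q), p ≠ 0 ∧
        p.eval₂ (ψ.comp (MvPolynomial.map (algebraMap Q C))) (c l) = 0) →
      Δ.eval₂ (MvPolynomial.eval₂Hom ψ c) η ≠ 0) →
    ∃ h : MvPolynomial X Q, h ≠ 0 ∧ ∀ (s : X → Q) (c : Λ → Q), MvPolynomial.eval s h ≠ 0 → c α = 1 →
      MvPolynomial.map (MvPolynomial.eval₂Hom (MvPolynomial.eval fun i => algebraMap Q C (s i))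
        fun l => algebraMap Q C (c l)) Δ ≠ 0

/-- **IND.** Elements which are algebraically independent over `B` satisfy no relation with coefficients algebraic over
`B`. -/
def StmInd : Prop :=
  ∀ (B Ω I : Type) [CommRing B] [IsDomain B] [Field Ω] (ψ : B →+* Ω) (x : I → Ω),
    (∀ p : MvPolynomial I B, p.eval₂ ψ x = 0 → p = 0) →
    ∀ p : MvPolynomial I Ω, (∀ m, ∃ q : Polynomial B, q ≠ 0 ∧ q.eval₂ ψ (p.coeff m) = 0) →
      MvPolynomial.eval x p = 0 → p = 0

/-- **SUB.** The field generated over `B` by the images of the variables. -/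
def StmSub : Prop :=
  ∀ (B L σ : Type) [CommRing B] [IsDomain B] [Field L] (φ : MvPolynomial σ B →+* L),
    Function.Injective (fun b : B => φ (MvPolynomial.C b)) →
    ∃ (L' : Type) (_ : Field L') (_ : Algebra B L') (_ : FaithfulSMul B L') (F : σ → L'),
      (∀ p : MvPolynomial σ B, MvPolynomial.aeval F p = 0 ↔ φ p = 0) ∧
      ∀ l : L', ∃ p q : MvPolynomial σ B, MvPolynomial.aeval F q ≠ 0 ∧
        MvPolynomial.aeval F q * l = MvPolynomial.aeval F p

end Pool.Agent.N207.GQ
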